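import Pool.Agent.H852R2.DM.Defs

namespace DM852
open RC14 RC852 Finset Equiv

namespace CHEBW

open Classical in
/-- number of `j`-subsets containing a given set `T` -/
lemma card_sup {D : Type} [Fintype D] (T : Finset D) (j : ℕ) (hj : T.card ≤ j) :
    #{S : Finset D | S.card = j ∧ T ⊆ S} = (Fintype.card D - T.card).choose (j - T.card) := by
  rw [← Finset.card_univ_sdiff, ← Finset.card_powersetCard]
  refine Finset.card_nbij' (fun S => S \ T) (fun U => U ∪ T) ?_ ?_ ?_ ?_
  · intro S hS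
    simp only [coe_filter, mem_univ, true_and, Set.mem_ofPred_eq] at hS
    simp only [Finset.mem_coe, Finset.mem_powersetCard]
    refine ⟨Finset.sdiff_subset_sdiff (Finset.subset_univ _) subset_rfl, ?_⟩
    rw [Finset.card_sdiff_of_subset hS.2, hS.1]
  · intro U hU
    simp only [Finset.mem_coe, Finset.mem_powersetCard] at hU
    simp only [coe_filter, mem_univ, true_and, Set.mem_ofPred_eq]
    have hd : Disjoint U T := by
      rw [Finset.disjoint_left]
      intro x hx hxT
      have := hU.1 hx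
      simp only [mem_sdiff, mem_univ, true_and] at this
      exact this hxT
    refine ⟨?_, Finset.subset_union_right⟩
    rw [Finset.card_union_of_disjoint hd, hU.2]
    omega
  · intro S hS
    simp only [coe_filter, mem_univ, true_and, Set.mem_ofPred_eq] at hS
    exact Finset.sdiff_union_of_subset hS.2
  · intro U hU
    simp only [Finset.mem_coe, Finset.mem_powersetCard] at hU
    have hd : Disjoint U T := by
      rw [Finset.disjoint_left]
      intro x hx hxT
      have := hU.1 hx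
      simp only [mem_sdiff, mem_univ, true_and] at this
      exact this hxT
    show (U ∪ T) \ T = U
    rw [Finset.union_sdiff_right, Finset.sdiff_eq_self_of_disjoint hd]

open Classical in
lemma N1 {D : Type} [Fintype D] (j : ℕ) (hj : j ≤ Fintype.card D) (d : D) :
    (#{S : Finset D | S.card = j ∧ d ∈ S} : ℝ) =
      (Fintype.card D).choose j * ((j : ℝ) / Fintype.card D) := by
  have hk : 0 < Fintype.card D := Fintype.card_pos_iff.mpr ⟨d⟩
  have hk' : (0 : ℝ) < Fintype.card D := by exact_mod_cast hk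
  rcases Nat.eq_zero_or_pos j with h0 | hpos
  · subst h0
    simp
  · have h := card_sup (D := D) {d} j (by rw [Finset.card_singleton]; exact hpos)
    simp only [Finset.singleton_subset_iff, Finset.card_singleton] at h
    rw [h]
    obtain ⟨k, hk2⟩ := Nat.exists_eq_succ_of_ne_zero hk.ne'
    obtain ⟨i, rfl⟩ := Nat.exists_eq_succ_of_ne_zero hpos.ne'
    rw [hk2] at hk' ⊢
    simp only [Nat.succ_eq_add_one, Nat.add_sub_cancel]
    have h3 := Nat.add_one_mul_choose_eq k i
    have h4 : ((k + 1 : ℕ) : ℝ) * (k.choose i : ℝ) = ((k+1).choose (i+1) : ℝ) * ((i + 1 : ℕ) : ℝ) := by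
      exact_mod_cast h3
    field_simp
    push_cast at h4 ⊢
    linarith

open Classical in
lemma N2 {D : Type} [Fintype D] (j : ℕ) (hj : j ≤ Fintype.card D) (d d' : D) (hne : d ≠ d') :
    (#{S : Finset D | S.card = j ∧ (d ∈ S ∧ d' ∈ S)} : ℝ) ≤
      (Fintype.card D).choose j * ((j : ℝ) / Fintype.card D) ^ 2 := by
  have hk : 0 < Fintype.card D := Fintype.card_pos_iff.mpr ⟨d⟩
  have hcard2 : 2 ≤ Fintype.card D := by
    have : ({d, d'} : Finset D).card ≤ Fintype.card D := Finset.card_le_univ _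
    rwa [Finset.card_pair hne] at this
  by_cases h2 : j < 2
  · have : (#{S : Finset D | S.card = j ∧ (d ∈ S ∧ d' ∈ S)}) = 0 := by
      rw [Finset.card_eq_zero, Finset.filter_eq_empty_iff]
      rintro S - ⟨h1, h3, h4⟩
      have : ({d, d'} : Finset D) ⊆ S := by
        intro x hx; simp only [mem_insert, mem_singleton] at hx; rcases hx with rfl | rfl <;> assumption
      have := Finset.card_le_card this
      rw [Finset.card_pair hne] at this
      omega
    rw [this]
    push_cast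
    positivity
  · push Not at h2
    have h := card_sup (D := D) {d, d'} j (by rw [Finset.card_pair hne]; exact h2)
    rw [Finset.card_pair hne] at h
    have he : (#{S : Finset D | S.card = j ∧ (d ∈ S ∧ d' ∈ S)}) =
        #{S : Finset D | S.card = j ∧ {d, d'} ⊆ S} := by
      congr 1
      ext S
      simp only [mem_filter, mem_univ, true_and, Finset.insert_subset_iff,
        Finset.singleton_subset_iff]
    rw [he, h]
    obtain ⟨k, hk2⟩ := Nat.exists_eq_add_of_le hcard2
    obtain ⟨i, rfl⟩ := Nat.exists_eq_add_of_le h2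
    rw [hk2]
    have e1 : 2 + k - 2 = k := by omega
    have e2 : 2 + i - 2 = i := by omega
    rw [e1, e2]
    have h3 := Nat.add_one_mul_choose_eq k i
    have h4 := Nat.add_one_mul_choose_eq (k+1) (i+1)
    have h5 : ((2 + k).choose (2 + i) : ℝ) * ((i + 2) * (i + 1)) = (k + 2) * (k + 1) * (k.choose i) := by
      have h6 : ((k + 2 : ℕ) : ℝ) * ((k+1).choose (i+1) : ℝ) =
          ((k+2).choose (i+2) : ℝ) * ((i + 2 : ℕ) : ℝ) := by exact_mod_cast h4
      have h7 : ((k + 1 : ℕ) : ℝ) * (k.choose i : ℝ) = ((k+1).choose (i+1) : ℝ) * ((i + 1 : ℕ) : ℝ) := by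
        exact_mod_cast h3
      rw [show 2 + k = k + 2 by ring, show 2 + i = i + 2 by ring]
      push_cast at h6 h7
      calc ((k + 2).choose (i + 2) : ℝ) * ((i + 2) * (i + 1))
          = (((k+2).choose (i+2) : ℝ) * (i + 2)) * (i + 1) := by ring
        _ = (((k : ℝ) + 2) * ((k+1).choose (i+1) : ℝ)) * (i + 1) := by rw [h6]
        _ = ((k : ℝ) + 2) * (((k+1).choose (i+1) : ℝ) * (i + 1)) := by ring
        _ = ((k : ℝ) + 2) * (((k : ℝ) + 1) * (k.choose i : ℝ)) := by rw [h7]
        _ = _ := by ring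
    have hik : (i : ℝ) ≤ k := by
      have : 2 + i ≤ 2 + k := by omega
      exact_mod_cast (by omega : i ≤ k)
    have hk0 : (0 : ℝ) ≤ k := by positivity
    have hi0 : (0 : ℝ) ≤ i := by positivity
    have hC : (0 : ℝ) ≤ ((2 + k).choose (2 + i) : ℝ) := by positivity
    push_cast
    rw [div_pow, ← mul_div_assoc, le_div_iff₀ (by positivity)]
    -- choose k i * (2+k)^2 ≤ C * (2+i)^2
    have h8 : (k.choose i : ℝ) = ((2 + k).choose (2 + i) : ℝ) * ((i + 2) * (i + 1)) / ((k + 2) * (k + 1)) := by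
      field_simp
      linarith
    rw [h8, div_mul_eq_mul_div, div_le_iff₀ (by positivity)]
    have h9 : ((i : ℝ) + 1) * (k + 2) ≤ (i + 2) * (k + 1) := by nlinarith
    have h10 : ((i : ℝ) + 2) * (i + 1) * (2 + k) ^ 2 ≤ (2 + i) ^ 2 * ((k + 2) * (k + 1)) := by
      have := mul_le_mul_of_nonneg_left h9 (by positivity : (0 : ℝ) ≤ (i + 2) * (k + 2))
      nlinarith
    calc ((2 + k).choose (2 + i) : ℝ) * ((i + 2) * (i + 1)) * (2 + k) ^ 2
        = ((2 + k).choose (2 + i) : ℝ) * (((i : ℝ) + 2) * (i + 1) * (2 + k) ^ 2) := by ring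
      _ ≤ ((2 + k).choose (2 + i) : ℝ) * ((2 + i) ^ 2 * ((k + 2) * (k + 1))) :=
          mul_le_mul_of_nonneg_left h10 hC
      _ = _ := by ring

end CHEBW

open Classical CHEBW in
/-- Chebyshev's inequality for the weight of a random subset of size `j` -/
theorem CHEBW {D : Type} [Fintype D] (ω : D → ℕ) (j : ℕ) (hj : j ≤ Fintype.card D) (Δ : ℝ)
    (hΔ : 0 < Δ) :
    (#{S : Finset D | S.card = j ∧
        Δ ≤ |∑ d ∈ S, (ω d : ℝ) - (j : ℝ) / Fintype.card D * ∑ d, (ω d : ℝ)|} : ℝ) * Δ ^ 2 ≤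
      (Fintype.card D).choose j * ((j : ℝ) / Fintype.card D * ∑ d, (ω d : ℝ) ^ 2) := by
  set Ω : ℝ := ∑ d, (ω d : ℝ) with hΩ
  set r : ℝ := (j : ℝ) / Fintype.card D with hr
  set C : ℝ := ((Fintype.card D).choose j : ℝ) with hC
  have hC0 : 0 ≤ C := by positivity
  have hr0 : 0 ≤ r := by positivity
  set P : Finset (Finset D) := univ.filter (fun S => S.card = j) with hP
  have hPc : (P.card : ℝ) = C := by
    rw [hP, hC]
    congr 1
    have := card_sup (D := D) ∅ j (by simp)
    simpa using this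
  have hfilt : (univ.filter (fun S : Finset D => S.card = j ∧
        Δ ≤ |∑ d ∈ S, (ω d : ℝ) - r * Ω|)) =
      P.filter (fun S => Δ ≤ |∑ d ∈ S, (ω d : ℝ) - r * Ω|) := by
    rw [hP, Finset.filter_filter]
  rw [hfilt]
  have hmarkov : ((P.filter (fun S => Δ ≤ |∑ d ∈ S, (ω d : ℝ) - r * Ω|)).card : ℝ) * Δ ^ 2 ≤
      ∑ S ∈ P, (∑ d ∈ S, (ω d : ℝ) - r * Ω) ^ 2 := by
    calc ((P.filter (fun S => Δ ≤ |∑ d ∈ S, (ω d : ℝ) - r * Ω|)).card : ℝ) * Δ ^ 2
        = ∑ S ∈ P.filter (fun S => Δ ≤ |∑ d ∈ S, (ω d : ℝ) - r * Ω|), Δ ^ 2 := by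
          rw [Finset.sum_const, nsmul_eq_mul]
      _ ≤ ∑ S ∈ P.filter (fun S => Δ ≤ |∑ d ∈ S, (ω d : ℝ) - r * Ω|),
            (∑ d ∈ S, (ω d : ℝ) - r * Ω) ^ 2 := by
          apply Finset.sum_le_sum
          intro S hS
          rw [Finset.mem_filter] at hS
          rw [← sq_abs (∑ d ∈ S, (ω d : ℝ) - r * Ω)]
          exact pow_le_pow_left₀ hΔ.le hS.2 2
      _ ≤ _ := Finset.sum_le_sum_of_subset_of_nonneg (Finset.filter_subset _ _)
            (fun _ _ _ => sq_nonneg _)
  refine hmarkov.trans ?_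
  -- first moment
  have hind : ∀ S : Finset D, ∑ d ∈ S, (ω d : ℝ) = ∑ d, (if d ∈ S then (ω d : ℝ) else 0) := by
    intro S
    rw [← Finset.sum_filter]
    congr 1
    ext; simp
  have hcount : ∀ (Q : Finset D → Prop) [DecidablePred Q], (∑ S ∈ P, (if Q S then (1:ℝ) else 0)) =
      (#{S : Finset D | S.card = j ∧ Q S} : ℝ) := by
    intro Q _
    rw [← Finset.sum_filter, Finset.sum_const, nsmul_eq_mul, mul_one, hP, Finset.filter_filter]
  have hM1 : ∑ S ∈ P, ∑ d ∈ S, (ω d : ℝ) = C * (r * Ω) := by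
    calc ∑ S ∈ P, ∑ d ∈ S, (ω d : ℝ)
        = ∑ S ∈ P, ∑ d, (if d ∈ S then (ω d : ℝ) else 0) := by
          apply Finset.sum_congr rfl; intro S _; exact hind S
      _ = ∑ d, ∑ S ∈ P, (if d ∈ S then (ω d : ℝ) else 0) := Finset.sum_comm
      _ = ∑ d, (ω d : ℝ) * (C * r) := by
          apply Finset.sum_congr rfl
          intro d _
          rw [hC, hr, ← N1 j hj d, ← hcount (fun S => d ∈ S), Finset.mul_sum]
          apply Finset.sum_congr rfl
          intro S _
          split_ifs <;> simp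
      _ = _ := by rw [← Finset.sum_mul]; ring
  -- second moment
  have hM2 : ∑ S ∈ P, (∑ d ∈ S, (ω d : ℝ)) ^ 2 ≤ C * (r * ∑ d, (ω d : ℝ) ^ 2) + C * (r * Ω) ^ 2 := by
    have e1 : ∑ S ∈ P, (∑ d ∈ S, (ω d : ℝ)) ^ 2 =
        ∑ d, ∑ d', (ω d : ℝ) * ω d' * (#{S : Finset D | S.card = j ∧ (d ∈ S ∧ d' ∈ S)} : ℝ) := by
      calc ∑ S ∈ P, (∑ d ∈ S, (ω d : ℝ)) ^ 2
          = ∑ S ∈ P, ∑ d, ∑ d', (if d ∈ S then (ω d : ℝ) else 0) * (if d' ∈ S then (ω d' : ℝ) else 0) := by
            apply Finset.sum_congr rfl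
            intro S _
            rw [hind S, sq, Finset.sum_mul_sum]
        _ = ∑ d, ∑ S ∈ P, ∑ d', (if d ∈ S then (ω d : ℝ) else 0) * (if d' ∈ S then (ω d' : ℝ) else 0) :=
            Finset.sum_comm
        _ = ∑ d, ∑ d', ∑ S ∈ P, (if d ∈ S then (ω d : ℝ) else 0) * (if d' ∈ S then (ω d' : ℝ) else 0) := by
            apply Finset.sum_congr rfl; intro d _; exact Finset.sum_comm
        _ = _ := by
            apply Finset.sum_congr rfl; intro d _
            apply Finset.sum_congr rfl; intro d' _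
            rw [← hcount (fun S => d ∈ S ∧ d' ∈ S), Finset.mul_sum]
            apply Finset.sum_congr rfl
            intro S _
            by_cases h1 : d ∈ S <;> by_cases h2 : d' ∈ S <;> simp [h1, h2]
    rw [e1]
    have e2 : ∀ d d' : D, (ω d : ℝ) * ω d' * (#{S : Finset D | S.card = j ∧ (d ∈ S ∧ d' ∈ S)} : ℝ) ≤
        (if d = d' then (ω d : ℝ) ^ 2 * (C * r) else 0) + (ω d : ℝ) * ω d' * (C * r ^ 2) := by
      intro d d'
      have hw : (0 : ℝ) ≤ (ω d : ℝ) * ω d' := by positivity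
      by_cases h : d = d'
      · subst h
        have : (#{S : Finset D | S.card = j ∧ (d ∈ S ∧ d ∈ S)} : ℝ) = C * r := by
          rw [hC, hr, ← N1 j hj d]
          simp only [and_self]
        rw [this, if_pos rfl]
        have : (0:ℝ) ≤ (ω d : ℝ) * ω d * (C * r ^ 2) := by positivity
        nlinarith
      · rw [if_neg h, zero_add]
        apply mul_le_mul_of_nonneg_left _ hw
        exact N2 j hj d d' h
    calc ∑ d, ∑ d', (ω d : ℝ) * ω d' * (#{S : Finset D | S.card = j ∧ (d ∈ S ∧ d' ∈ S)} : ℝ)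
        ≤ ∑ d, ∑ d', ((if d = d' then (ω d : ℝ) ^ 2 * (C * r) else 0) + (ω d : ℝ) * ω d' * (C * r ^ 2)) :=
          Finset.sum_le_sum fun d _ => Finset.sum_le_sum fun d' _ => e2 d d'
      _ = ∑ d, (ω d : ℝ) ^ 2 * (C * r) + (Ω * Ω) * (C * r ^ 2) := by
          simp only [Finset.sum_add_distrib]
          congr 1
          · apply Finset.sum_congr rfl; intro d _
            rw [Finset.sum_ite_eq]; simp
          · rw [hΩ, Finset.sum_mul_sum, Finset.sum_mul]
            apply Finset.sum_congr rfl; intro d _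
            rw [Finset.sum_mul]
      _ = _ := by rw [← Finset.sum_mul]; ring
  calc ∑ S ∈ P, (∑ d ∈ S, (ω d : ℝ) - r * Ω) ^ 2
      = ∑ S ∈ P, ((∑ d ∈ S, (ω d : ℝ)) ^ 2 - 2 * (r * Ω) * (∑ d ∈ S, (ω d : ℝ)) + (r * Ω) ^ 2) := by
        apply Finset.sum_congr rfl; intro S _; ring
    _ = ∑ S ∈ P, (∑ d ∈ S, (ω d : ℝ)) ^ 2 - 2 * (r * Ω) * (∑ S ∈ P, ∑ d ∈ S, (ω d : ℝ)) +
          P.card * (r * Ω) ^ 2 := by
        rw [Finset.sum_add_distrib, Finset.sum_sub_distrib, ← Finset.mul_sum, Finset.sum_const,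
          nsmul_eq_mul]
    _ ≤ _ := by
        rw [hM1, hPc]
        nlinarith [hM2]

end DM852
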